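import Pool.Agent.Q67.AXI.Defs

/-!
# Project AXI, job 35: bounds in the outer region
-/

set_option autoImplicit false

open MeasureTheory Set Metric Filter Topology
open scoped ContDiff
open H459R3.NS Pool.Agent.W268.NS Pool.Agent.Q67.VD
open Pool.Agent.Q85.CC Pool.Agent.Q85.CL Pool.Agent.TH305.AX Pool.Agent.Q67.AXI

namespace Pool.Agent.Q95.AXI

theorem Bd3_mono {F F' : ℝ} {O O' : Set V} {f : V → V} (hF : F ≤ F') (hO : O' ⊆ O)
    (h : W221.NS.Bd3 F O f) : W221.NS.Bd3 F' O' f := by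
  intro x hx i
  obtain ⟨h1, h2, h3, h4⟩ := h x (hO hx) i
  exact ⟨h1.trans hF, fun j => (h2 j).trans hF, fun j k => (h3 j k).trans hF,
    fun j k l => (h4 j k l).trans hF⟩

theorem Bd3_union {F F' : ℝ} {O O' : Set V} {f : V → V} (h : W221.NS.Bd3 F O f)
    (h' : W221.NS.Bd3 F' O' f) : W221.NS.Bd3 (max F F') (O ∪ O') f := by
  intro x hx i
  rcases hx with hx | hx
  · exact Bd3_mono (le_max_left _ _) subset_rfl h x hx i
  · exact Bd3_mono (le_max_right _ _) subset_rfl h' x hx i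

theorem cont_sg : Continuous sg := by
  unfold sg
  fun_prop

/-- Compact sets of regular points. -/
theorem cov (hD : StmDer) {T E : ℝ} {O : Set V} {u : ℝ → V → V} {p : ℝ → V → ℝ} (hT : 0 < T)
    (hu : LSl T E O u p) {C : Set V} (hC : IsCompact C) (hCO : C ⊆ O) (hR : ∀ y ∈ C, Rg T u y) :
    ∃ (K δ : ℝ) (W : Set V), 0 ≤ K ∧ 0 < δ ∧ δ < T ∧ IsOpen W ∧ C ⊆ W ∧
      ∀ t ∈ Ioo (T - δ) T, W221.NS.Bd3 K W (u t) := by
  refine hC.induction_on (p := fun S => ∃ (K δ : ℝ) (W : Set V), 0 ≤ K ∧ 0 < δ ∧ δ < T ∧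
    IsOpen W ∧ S ⊆ W ∧ ∀ t ∈ Ioo (T - δ) T, W221.NS.Bd3 K W (u t)) ?_ ?_ ?_ ?_
  · exact ⟨0, T / 2, ∅, le_rfl, by linarith, by linarith, isOpen_empty, subset_rfl,
      fun t _ x hx => absurd hx (notMem_empty x)⟩
  · rintro S S' hS ⟨K, δ, W, h1, h2, h3, h4, h5, h6⟩
    exact ⟨K, δ, W, h1, h2, h3, h4, hS.trans h5, h6⟩
  · rintro S S' ⟨K, δ, W, h1, h2, h3, h4, h5, h6⟩ ⟨K', δ', W', h1', h2', h3', h4', h5', h6'⟩
    refine ⟨max K K', min δ δ', W ∪ W', h1.trans (le_max_left _ _), lt_min h2 h2',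
      (min_le_left _ _).trans_lt h3, h4.union h4', union_subset_union h5 h5', ?_⟩
    intro t ht
    apply Bd3_union
    · exact h6 t ⟨lt_of_le_of_lt (by linarith [min_le_left δ δ']) ht.1, ht.2⟩
    · exact h6' t ⟨lt_of_le_of_lt (by linarith [min_le_right δ δ']) ht.1, ht.2⟩
  · intro y hy
    obtain ⟨K, δ, h1, h2, h3, h4⟩ := hD T E O u p hT hu y (hCO hy) (hR y hy)
    exact ⟨ball y δ, mem_nhdsWithin_of_mem_nhds (ball_mem_nhds y h2), K, δ, ball y δ, h1, h2, h3,
      isOpen_ball, subset_rfl, h4⟩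

theorem compact_cyl (r h c : ℝ) {S : Set V} (hS : IsClosed S) (hs : ∀ x ∈ S, sg x ≤ r ^ 2 ∧ |x 2 - c| ≤ h) :
    IsCompact S := by
  refine Metric.isCompact_of_isClosed_isBounded hS ?_
  rw [isBounded_iff_forall_norm_le]
  refine ⟨|r| + (h + |c|), ?_⟩
  intro x hx
  obtain ⟨h1, h2⟩ := hs x hx
  have h3 : |x 0| ≤ |r| := sq_le_sq.1 (by unfold sg at h1; nlinarith [sq_nonneg (x 1)])
  have h4 : |x 1| ≤ |r| := sq_le_sq.1 (by unfold sg at h1; nlinarith [sq_nonneg (x 0)])
  have h5 : |x 2| ≤ h + |c| := by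
    have : x 2 = (x 2 - c) + c := by ring
    rw [this]
    exact (abs_add_le _ _).trans (by linarith)
  have h6 : 0 ≤ |r| := abs_nonneg _
  have h7 : 0 ≤ h + |c| := by
    have := abs_nonneg (x 2 - c)
    have := abs_nonneg c
    linarith
  rw [pi_norm_le_iff_of_nonneg (by linarith)]
  intro i
  rw [Real.norm_eq_abs]
  fin_cases i
  · show |x 0| ≤ _
    linarith
  · show |x 1| ≤ _
    linarith
  · show |x 2| ≤ _
    linarith

/-- AXI-35 -/
theorem gd (hGR : StmGR) (hDer : StmDer) (hKap : StmKap) : StmGd := by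
  intro T E c R H u p hT hR hH hu r h₀ hr hrR hh0 hh0H
  obtain ⟨hoff, hon⟩ := hGR T E c R H u p hT hR hu
  obtain ⟨h, hh, hhh0, hp1, hp2⟩ := hon h₀ hh0 hh0H
  have hLS : LSl T E (Co c R H) u p := hu.toLSl
  have hr2 : r ^ 2 < R ^ 2 := by nlinarith
  -- the discs
  set D : Set V := {x | sg x ≤ r ^ 2 ∧ |x 2 - c| = h} with hD
  have hDclosed : IsClosed D := by
    have h1 : IsClosed {x : V | sg x ≤ r ^ 2} := isClosed_le cont_sg continuous_const
    have h2 : IsClosed {x : V | |x 2 - c| = h} := isClosed_eq (by fun_prop) continuous_const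
    exact h1.inter h2
  have hDc : IsCompact D := compact_cyl r h c hDclosed fun x hx => ⟨hx.1, hx.2.le⟩
  have hDO : D ⊆ Co c R H := fun x hx => ⟨hx.1.trans_lt hr2, by
    have := hx.2
    rw [this]
    linarith⟩
  have hDR : ∀ y ∈ D, Rg T u y := by
    intro y hy
    by_cases h0 : 0 < sg y
    · exact hoff y (hDO hy) h0
    · have hz : sg y = 0 := le_antisymm (not_lt.1 h0) (by unfold sg; positivity)
      unfold sg at hz
      have hy0 : y 0 = 0 := by nlinarith [sq_nonneg (y 0), sq_nonneg (y 1)]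
      have hy1 : y 1 = 0 := by nlinarith [sq_nonneg (y 0), sq_nonneg (y 1)]
      rcases (abs_eq hh.le).1 hy.2 with h2 | h2
      · have : y = ![0, 0, c + h] := by
          funext i
          fin_cases i
          · exact hy0
          · exact hy1
          · show y 2 = c + h
            linarith
        rw [this]
        exact hp1
      · have : y = ![0, 0, c - h] := by
          funext i
          fin_cases i
          · exact hy0
          · exact hy1
          · show y 2 = c - h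
            linarith
        rw [this]
        exact hp2
  obtain ⟨K, δ, W, hK, hδ, hδT, hWo, hDW, hW⟩ := cov hDer hT hLS hDc hDO hDR
  obtain ⟨η, hη, hηW⟩ := hDc.exists_thickening_subset_open hWo hDW
  refine ⟨h, max (h / 2) (h - η / 2), lt_max_of_lt_left (by linarith),
    max_lt (by linarith) (by linarith), hhh0, ?_⟩
  set h1 := max (h / 2) (h - η / 2) with hh1
  have hh1pos : 0 < h1 := lt_max_of_lt_left (by linarith)
  have hh1lt : h1 < h := max_lt (by linarith) (by linarith)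
  have hh1η : h - η / 2 ≤ h1 := le_max_right _ _
  intro r' r1 hr' hr1 hr1r'
  have hr'2 : r' ^ 2 ≤ r ^ 2 := by nlinarith
  -- near the discs
  have hnear : ∀ x : V, sg x ≤ r ^ 2 → h1 ≤ |x 2 - c| → |x 2 - c| ≤ h → x ∈ W := by
    intro x hx1 hx2 hx3
    apply hηW
    rw [mem_thickening_iff]
    -- the point of the disc
    have key : ∀ s : ℝ, |s - c| = h → |x 2 - s| < η → ∃ z ∈ D, dist x z < η := by
      intro s hs hsx
      refine ⟨![x 0, x 1, s], ⟨?_, ?_⟩, ?_⟩
      · show (![x 0, x 1, s] : V) 0 ^ 2 + (![x 0, x 1, s] : V) 1 ^ 2 ≤ r ^ 2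
        exact hx1
      · show |(![x 0, x 1, s] : V) 2 - c| = h
        exact hs
      · rw [dist_pi_lt_iff hη]
        intro i
        fin_cases i
        · show dist (x 0) (x 0) < η
          rw [dist_self]
          exact hη
        · show dist (x 1) (x 1) < η
          rw [dist_self]
          exact hη
        · show dist (x 2) s < η
          rw [Real.dist_eq]
          exact hsx
    rcases le_total 0 (x 2 - c) with h0 | h0
    · rw [abs_of_nonneg h0] at hx2 hx3
      refine key (c + h) (by rw [add_sub_cancel_left, abs_of_pos hh]) ?_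
      rw [abs_lt]
      constructor <;> linarith
    · rw [abs_of_nonpos h0] at hx2 hx3
      refine key (c - h) (by rw [show c - h - c = -h by ring, abs_neg, abs_of_pos hh]) ?_
      rw [abs_lt]
      constructor <;> linarith
  -- off the axis
  set D2 : Set V := {x | (r1 ^ 2 ≤ sg x ∧ sg x ≤ r ^ 2) ∧ |x 2 - c| ≤ h} with hD2
  have hD2closed : IsClosed D2 := by
    have a1 : IsClosed {x : V | r1 ^ 2 ≤ sg x} := isClosed_le continuous_const cont_sg
    have a2 : IsClosed {x : V | sg x ≤ r ^ 2} := isClosed_le cont_sg continuous_const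
    have a3 : IsClosed {x : V | |x 2 - c| ≤ h} := isClosed_le (by fun_prop) continuous_const
    exact (a1.inter a2).inter a3
  have hD2c : IsCompact D2 := compact_cyl r h c hD2closed fun x hx => ⟨hx.1.2, hx.2⟩
  have hD2O : D2 ⊆ Co c R H := fun x hx => ⟨hx.1.2.trans_lt hr2, hx.2.trans_lt (by linarith)⟩
  have hD2R : ∀ y ∈ D2, Rg T u y := fun y hy =>
    hoff y (hD2O hy) (lt_of_lt_of_le (by positivity) hy.1.1)
  obtain ⟨K2, δ2, W2, hK2, hδ2, hδ2T, hW2o, hDW2, hW2⟩ := cov hDer hT hLS hD2c hD2O hD2R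
  obtain ⟨K', hK', hKK⟩ := hKap (max K K2) c r' h r1 h1 (hK.trans (le_max_left _ _)) hr1 hr1r'
    hh1pos hh1lt
  have hmin : 0 < min δ δ2 := lt_min hδ hδ2
  have hminT : min δ δ2 < T := (min_le_left _ _).trans_lt hδT
  refine ⟨K', T - min δ δ2 / 2, hK', by linarith, by linarith, ?_⟩
  intro t ht
  have ht0 : t ∈ Ioo 0 T := ⟨by linarith [ht.1], ht.2⟩
  have hsm : ContDiff ℝ ∞ (u t) := by
    have h2 : ContDiffOn ℝ ∞ (fun x : V => u t x) univ := by
      have h3 : ContDiffOn ℝ ∞ (fun x : V => (t, x)) univ := by fun_prop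
      exact hLS.smooth_u.comp h3 fun x _ => ⟨ht0, mem_univ _⟩
    exact contDiffOn_univ.1 h2
  apply hKK (u t) hsm (hu.axi t ht0)
  have b1 := hW t ⟨by linarith [ht.1, min_le_left δ δ2], ht.2⟩
  have b2 := hW2 t ⟨by linarith [ht.1, min_le_right δ δ2], ht.2⟩
  refine Bd3_mono le_rfl ?_ (Bd3_union b1 b2)
  rintro x ⟨⟨hx1, hx2⟩, hx3⟩
  rcases hx3 with hx3 | hx3
  · exact Or.inr (hDW2 ⟨⟨hx3, hx1.trans hr'2⟩, hx2⟩)
  · exact Or.inl (hnear x (hx1.trans hr'2) hx3 hx2)

end Pool.Agent.Q95.AXI
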